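import Pool.Agent.Y107.KO.Defs
import Pool.Agent.Y101.Ds.Main

/-!
# Cycles and `K_1` of hypersurfaces
-/

set_option autoImplicit false

open CategoryTheory AlgebraicGeometry MvPolynomial

namespace Pool.Agent.Y107.KO

open Pool.Agent.Y116.UV Pool.Agent.Y101.Ds Pool.Agent.Y101.Th Pool.Agent.Z125.UN

variable {k : Type} [Field k] {T : Reg k}

lemma Below.inj {p : ℤ} {X : Sch k} {L : List (ℤ × Sch k)} (h : Below T p X L)
    (hL : ∀ Z ∈ L, Inj T Z.1 Z.2) : Inj T p X := by
  intro j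
  rw [injective_iff_map_eq_zero]
  intro x hx
  by_contra hx0
  obtain ⟨Z, v, f, hZ, hf⟩ := h j x hx0
  refine hf ((injective_iff_map_eq_zero _).1 (hL Z hZ v) _ ?_)
  rw [← f.comm, hx, map_zero]

lemma Below.inj_one {p q : ℤ} {X Y : Sch k} (h : Below T p X [(q, Y)]) (hY : Inj T q Y) :
    Inj T p X := by
  refine h.inj fun Z hZ => ?_
  rw [List.mem_singleton] at hZ
  rw [hZ]
  exact hY

/-- Systems of polynomials `∑ t_ijl y_j z_l` for a smooth closed subscheme of an affine space. -/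
theorem present {S : Set k} (h0 : (0 : k) ∈ S) (h1 : (1 : k) ∈ S) {n : ℕ}
    (G : Finset (MvPolynomial (Fin n) k)) (hHas : ∀ p ∈ G, Has S p) (hG : G.Nonempty)
    (hsm : Algebra.Smooth k (MvPolynomial (Fin n) k ⧸
      Ideal.span (G : Set (MvPolynomial (Fin n) k)))) :
    ∃ (a b : ℕ) (t : Fin a → Option (Fin b) → Option (Fin n) → k), (∀ i j l, t i j l ∈ S) ∧
      (∃ i, biaff (t i) ≠ 0) ∧ Smooth (zeroSum t).hom ∧
      Nonempty ((MvPolynomial (Fin b ⊕ Fin n) k ⧸ Ideal.span (Set.range fun i => biaff (t i)))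
        ≃ₐ[k] (MvPolynomial (Fin n) k ⧸ Ideal.span (G : Set (MvPolynomial (Fin n) k)))) := by
  classical
  obtain ⟨s, hs⟩ := RX.exists_sys' h0 G hHas
  have hs' : ∀ g : G, ∃ e, s.F e = g.1 := fun g => hs g.1 g.2
  choose e he using hs'
  let eβ : s.β ≃ Fin (Fintype.card s.β) := Fintype.equivFin s.β
  let eκ : Fin (Fintype.card (s.κ ⊕ G)) ≃ s.κ ⊕ G := (Fintype.equivFin (s.κ ⊕ G)).symm
  obtain ⟨E⟩ := present_iso s G e eβ eκ he
  have hsm' : Algebra.Smooth k (MvPolynomial (Fin (Fintype.card s.β) ⊕ Fin n) k ⧸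
      qI s G e eβ eκ) := Algebra.Smooth.of_equiv E.symm
  refine ⟨_, _, cf s G e eβ eκ, cf_mem s G e eβ eκ h0 h1, ?_, smooth_aff hsm', ⟨E⟩⟩
  obtain ⟨g, hg⟩ := hG
  refine ⟨eκ.symm (Sum.inr ⟨g, hg⟩), ?_⟩
  have h2 := ev_inr s G e eβ eκ (AlgHom.id k _) (i := eκ.symm (Sum.inr ⟨g, hg⟩))
    (g := ⟨g, hg⟩) (by simp)
  change biaff (cf s G e eβ eκ (eκ.symm (Sum.inr ⟨g, hg⟩))) =
    X (Sum.inl (eβ (e ⟨g, hg⟩))) at h2
  rw [h2]
  exact X_ne_zero _

/-- The result for a smooth closed subscheme of an affine space. -/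
theorem closed_step (hT : IsReg T) {n a b : ℕ} {I : Ideal (MvPolynomial (Fin n) k)}
    (t : Fin a → Option (Fin b) → Option (Fin n) → k) (h2 : ∃ i, biaff (t i) ≠ 0)
    (h3 : Smooth (zeroSum t).hom) (E : (MvPolynomial (Fin b ⊕ Fin n) k ⧸
      Ideal.span (Set.range fun i => biaff (t i))) ≃ₐ[k] (MvPolynomial (Fin n) k ⧸ I)) :
    Inj T 0 (aff k (MvPolynomial (Fin n) k ⧸ I)) ↔ Inj T 1 (sumS t) := by
  have h4 := hT.iso (X := zeroSum t) (Y := aff k (MvPolynomial (Fin n) k ⧸ I)) (ft_aff True) h3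
    ⟨affIso E.symm⟩
  constructor
  · intro h
    refine (hT.residue _ _ (fun i => biaff (t i)) h3).inj fun Z hZ => ?_
    rcases List.mem_cons.1 hZ with h' | h'
    · rw [h']
      exact h4.1.inj_one h
    · rw [List.mem_singleton] at h'
      rw [h']
      exact hT.point
  · intro h
    exact h4.2.inj_one ((hT.gysin _ _ (fun i => biaff (t i)) h2 h3).inj_one h)

theorem present_univ {n : ℕ} (I : Ideal (MvPolynomial (Fin n) k))
    (hsm : Algebra.Smooth k (MvPolynomial (Fin n) k ⧸ I)) :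
    ∃ (a b : ℕ) (t : Fin a → Option (Fin b) → Option (Fin n) → k),
      (∃ i, biaff (t i) ≠ 0) ∧ Smooth (zeroSum t).hom ∧
      Nonempty ((MvPolynomial (Fin b ⊕ Fin n) k ⧸ Ideal.span (Set.range fun i => biaff (t i)))
        ≃ₐ[k] (MvPolynomial (Fin n) k ⧸ I)) := by
  classical
  obtain ⟨G0, rfl⟩ := (isNoetherianRing_iff_ideal_fg _).mp
    (inferInstance : IsNoetherianRing (MvPolynomial (Fin n) k)) I
  have hK : Ideal.span (G0 : Set (MvPolynomial (Fin n) k)) =
      Ideal.span ((insert 0 G0 : Finset (MvPolynomial (Fin n) k)) :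
        Set (MvPolynomial (Fin n) k)) := by
    rw [Finset.coe_insert, Ideal.span_insert_zero]
  rw [hK] at hsm ⊢
  obtain ⟨a, b, t, -, h⟩ := present (S := Set.univ) trivial trivial _
    (fun p _ => has_all (S := Set.univ) trivial trivial has_const p) (Finset.insert_nonempty _ _) hsm
  exact ⟨a, b, t, h⟩

theorem present_frac (hk : IsFrac k) {n : ℕ} (I : Ideal (MvPolynomial (Fin n) k))
    (hsm : Algebra.Smooth k (MvPolynomial (Fin n) k ⧸ I)) :
    ∃ (a b : ℕ) (t : Fin a → Option (Fin b) → Option (Fin n) → k),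
      (∀ i j l, t i j l = 0 ∨ t i j l = 1) ∧ (∃ i, biaff (t i) ≠ 0) ∧ Smooth (zeroSum t).hom ∧
      Nonempty ((MvPolynomial (Fin b ⊕ Fin n) k ⧸ Ideal.span (Set.range fun i => biaff (t i)))
        ≃ₐ[k] (MvPolynomial (Fin n) k ⧸ I)) := by
  classical
  obtain ⟨G0, rfl⟩ := (isNoetherianRing_iff_ideal_fg _).mp
    (inferInstance : IsNoetherianRing (MvPolynomial (Fin n) k)) I
  choose u hu w0 hw0 using fun g : MvPolynomial (Fin n) k => frac_scale hk g
  let G : Finset (MvPolynomial (Fin n) k) := insert 0 (G0.image fun g => C (u g) * g)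
  have hK : Ideal.span (G0 : Set (MvPolynomial (Fin n) k)) =
      Ideal.span (G : Set (MvPolynomial (Fin n) k)) := by
    rw [Finset.coe_insert, Ideal.span_insert_zero]
    apply le_antisymm
    · rw [Ideal.span_le]
      intro g hg
      obtain ⟨v, hv⟩ := (hu g).exists_left_inv
      have h1 : g = C v * (C (u g) * g) := by
        rw [← mul_assoc, ← C_mul, hv, C_1, one_mul]
      have h2 : C (u g) * g ∈ Ideal.span ((G0.image fun g => C (u g) * g :
          Finset (MvPolynomial (Fin n) k)) : Set (MvPolynomial (Fin n) k)) :=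
        Ideal.subset_span (Finset.mem_coe.mpr (Finset.mem_image_of_mem _ hg))
      have h3 := Ideal.mul_mem_left _ (C v) h2
      rw [← h1] at h3
      exact h3
    · rw [Ideal.span_le]
      intro g hg
      obtain ⟨g', hg', rfl⟩ := Finset.mem_image.mp (Finset.mem_coe.mp hg)
      exact Ideal.mul_mem_left _ _ (Ideal.subset_span hg')
  rw [hK] at hsm ⊢
  have h0 : (0 : k) ∈ ({0, 1} : Set k) := Or.inl rfl
  have h1 : (1 : k) ∈ ({0, 1} : Set k) := Or.inr rfl
  refine present h0 h1 G (fun p hp => RX.has_coeff h0 h1 p fun m => ?_)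
    (Finset.insert_nonempty _ _) hsm
  rcases Finset.mem_insert.mp hp with rfl | hp
  · exact ⟨0, by simp⟩
  · obtain ⟨g', hg', rfl⟩ := Finset.mem_image.mp hp
    exact ⟨w0 g' m, hw0 g' m⟩

lemma quasiProjective_aff {A : Type} [CommRing A] [Algebra k A] (hA : Algebra.Smooth k A) :
    QuasiProjective (aff k A) :=
  ⟨ft_aff True, smooth_aff hA, Or.inl (inferInstanceAs (IsAffine (Spec (CommRingCat.of A))))⟩

/-- A smooth affine scheme is a closed subscheme of an affine space. -/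
theorem affine_closed (hT : IsReg T) (A : Type) [CommRing A] [Algebra k A]
    (hA : Algebra.Smooth k A) : ∃ (n : ℕ) (I : Ideal (MvPolynomial (Fin n) k)),
      Algebra.Smooth k (MvPolynomial (Fin n) k ⧸ I) ∧
        (Inj T 0 (aff k A) ↔ Inj T 0 (aff k (MvPolynomial (Fin n) k ⧸ I))) := by
  obtain ⟨n, f, hf⟩ := Algebra.FiniteType.iff_quotient_mvPolynomial''.mp
    (inferInstance : Algebra.FiniteType k A)
  have e := Ideal.quotientKerAlgEquivOfSurjective hf
  have h1 : Algebra.Smooth k (MvPolynomial (Fin n) k ⧸ RingHom.ker f) :=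
    Algebra.Smooth.of_equiv e.symm
  have h2 := hT.iso (X := aff k A) (Y := aff k (MvPolynomial (Fin n) k ⧸ RingHom.ker f))
    (ft_aff True) (smooth_aff hA) ⟨affIso e⟩
  exact ⟨n, _, h1, h2.2.inj_one, h2.1.inj_one⟩

/-- Each quasi-projective scheme alone. -/
theorem alone (hT : IsReg T) (X : Sch k) (hX : QuasiProjective X) :
    ∃ (a b c : ℕ) (t : Fin a → Option (Fin b) → Option (Fin c) → k),
      (IsFrac k → ∀ i j l, t i j l = 0 ∨ t i j l = 1) ∧ Smooth (zeroSum t).hom ∧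
        (Inj T 0 X ↔ Inj T 1 (sumS t)) := by
  obtain ⟨A, _, _, hA, h1, h2⟩ := hT.jouanolou X hX
  obtain ⟨n, I, hI, h3⟩ := affine_closed hT A hA
  have h4 : Inj T 0 X ↔ Inj T 0 (aff k (MvPolynomial (Fin n) k ⧸ I)) :=
    (Iff.intro h2.inj_one h1.inj_one).trans h3
  by_cases hk : IsFrac k
  · obtain ⟨a, b, t, h5, h6, h7, ⟨E⟩⟩ := present_frac hk I hI
    exact ⟨a, b, n, t, fun _ => h5, h7, h4.trans (closed_step hT t h6 h7 E)⟩
  · obtain ⟨a, b, t, h6, h7, ⟨E⟩⟩ := present_univ I hI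
    exact ⟨a, b, n, t, fun h => absurd h hk, h7, h4.trans (closed_step hT t h6 h7 E)⟩

/-- From cycles to `K_1`. -/
theorem kone_of (hT : IsReg T) (h : AbelJacobiInjective T) {a b c : ℕ}
    (t : Fin a → Option (Fin b) → Option (Fin c) → k) (ht : Smooth (zeroSum t).hom) :
    Inj T 1 (sumS t) := by
  refine (hT.residue _ _ (fun i => biaff (t i)) ht).inj fun Z hZ => ?_
  rcases List.mem_cons.1 hZ with h' | h'
  · rw [h']
    exact h _ ⟨ft_aff True, ht, Or.inl (inferInstanceAs (IsAffine (Spec (CommRingCat.of _))))⟩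
  · rw [List.mem_singleton] at h'
    rw [h']
    exact hT.point

theorem all_iff (hT : IsReg T) : AbelJacobiInjective T ↔ KOneInjective T := by
  constructor
  · intro h a b c t ht
    exact kone_of hT h t ht
  · intro h X hX
    obtain ⟨a, b, c, t, -, h1, h2⟩ := alone hT X hX
    exact h2.mpr (h a b c t h1)

theorem frac_iff (hk : IsFrac k) (hT : IsReg T) :
    AbelJacobiInjective T ↔ ZeroOneKOneInjective T := by
  constructor
  · intro h a b c t ht _
    exact kone_of hT h t ht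
  · intro h X hX
    obtain ⟨a, b, c, t, h0, h1, h2⟩ := alone hT X hX
    exact h2.mpr (h a b c t h1 (h0 hk))

end Pool.Agent.Y107.KO
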