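import Pool.Agent.Y101.Ds.Defs
import Pool.Agent.Y101.Th.PairDefs

/-!
# Cycles and `K_1` of hypersurfaces: definitions
-/

set_option autoImplicit false

open CategoryTheory AlgebraicGeometry MvPolynomial

namespace Pool.Agent.Y107.KO

open Pool.Agent.Y116.UV Pool.Agent.Y101.Ds Pool.Agent.Y101.Th

attribute [local instance] MvPolynomial.gradedAlgebra

/-- Data for the smooth schemes `X` over `k`: the higher Chow groups
`M X p j = CH^j(X, p)_ℚ = H^(2j-p)_M(X, ℚ(j))`, the absolute Hodge cohomology
`H X p j = H^(2j-p)_H(X, ℚ(j))`, and the regulator `r`. -/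
structure Reg (k : Type) [Field k] where
  M : Sch k → ℤ → ℤ → Type
  H : Sch k → ℤ → ℤ → Type
  [gM : ∀ X p j, AddCommGroup (M X p j)]
  [gH : ∀ X p j, AddCommGroup (H X p j)]
  r : ∀ X p j, M X p j →+ H X p j

attribute [instance] Reg.gM Reg.gH

variable {k : Type} [Field k]

/-- The regulator is injective on `CH^j(X, p)_ℚ` for all `j`. For `p = 0` this means that the
Abel-Jacobi maps `Φ_(j,ℚ)` of `X` are injective. -/
def Inj (T : Reg k) (p : ℤ) (X : Sch k) : Prop := ∀ j, Function.Injective (T.r X p j)

/-- An additive map `s : CH^j(X, p)_ℚ → CH^v(Y, q)_ℚ` which is compatible, via the regulators, with an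
additive map `s'` between the absolute Hodge cohomology groups. -/
structure CMap (T : Reg k) (X : Sch k) (p j : ℤ) (Y : Sch k) (q v : ℤ) where
  s : T.M X p j →+ T.M Y q v
  s' : T.H X p j →+ T.H Y q v
  comm : ∀ x, s' (T.r X p j x) = T.r Y q v (s x)

/-- The compatible maps from `CH^j(X, p)_ℚ` to the groups `CH^v(Y, q)_ℚ` with `(q, Y)` in the list `L`
have no common nonzero kernel. -/
def Below (T : Reg k) (p : ℤ) (X : Sch k) (L : List (ℤ × Sch k)) : Prop :=
  ∀ (j : ℤ) (x : T.M X p j), x ≠ 0 →
    ∃ (Z : ℤ × Sch k) (v : ℤ) (f : CMap T X p j Z.2 Z.1 v), Z ∈ L ∧ f.s x ≠ 0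

/-- Smooth quasi-projective schemes: smooth of finite type and separated, and locally closed in a
projective space or affine. -/
def QuasiProjective (X : Sch k) : Prop :=
  FT True X ∧ Smooth X.hom ∧ (IsAffine X.left ∨
    ∃ (N : ℕ) (i : X.left ⟶ Proj (MvPolynomial.homogeneousSubmodule (Fin (N + 1)) k)),
      IsImmersion i ∧ i ≫ prS k N = X.hom)

/-- Known properties:

* `iso`: isomorphic smooth schemes have isomorphic groups;
* `gysin`: if `V : f = 0` is a smooth closed subscheme of an affine space and `f ≠ 0`, then the group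
  `CH^j(V_c, 0)` of the union `V_c` of the components of codimension `c` of `V` is a direct summand of
  `CH^(j+c)(U, 1)`, where `U : ∑ f_l w_l = 1` is the affine bundle over the complement of `V` (Gysin
  sequence of `V`, split by a rational point of the complement; homotopy invariance);
* `residue`: `CH^j(U, 1)` is mapped injectively into the product of the `CH^(j-c)(V_c, 0)` and of
  `CH^j(k, 1)` (residues and the value at a rational point);
* `jouanolou`: a quasi-projective `X` has the groups of a smooth affine scheme, an affine bundle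
  over `X`;
* `point`: the regulator is injective on the multiplicative group of `k`, `CH^1(k, 1)` (the groups
  `CH^j(k, 1)`, `j ≠ 1`, vanish). -/
structure IsReg (T : Reg k) : Prop where
  iso : ∀ {X Y : Sch k}, FT True X → Smooth X.hom → Nonempty (X ≅ Y) →
    Below T 0 X [(0, Y)] ∧ Below T 0 Y [(0, X)]
  gysin : ∀ (σ : Type) [Finite σ] (m : ℕ) (f : Fin m → MvPolynomial σ k), (∃ l, f l ≠ 0) →
    Smooth (zeroS f).hom → Below T 0 (zeroS f) [(1, bundleS f)]
  residue : ∀ (σ : Type) [Finite σ] (m : ℕ) (f : Fin m → MvPolynomial σ k),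
    Smooth (zeroS f).hom → Below T 1 (bundleS f) [(0, zeroS f), (1, aff k k)]
  jouanolou : ∀ X : Sch k, QuasiProjective X →
    ∃ (A : Type) (_ : CommRing A) (_ : Algebra k A), Algebra.Smooth k A ∧
      Below T 0 X [(0, aff k A)] ∧ Below T 0 (aff k A) [(0, X)]
  point : Inj T 1 (aff k k)

/-- The zero set `V_t` of the polynomials `∑ t_ijl y_j z_l`, `y_none = z_none = 1`. -/
noncomputable def zeroSum {a b c : ℕ} (t : Fin a → Option (Fin b) → Option (Fin c) → k) : Sch k :=
  zeroS fun i => biaff (t i)

/-- The Abel-Jacobi maps are injective for all smooth quasi-projective schemes over `k`. -/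
def AbelJacobiInjective (T : Reg k) : Prop := ∀ X : Sch k, QuasiProjective X → Inj T 0 X

/-- The regulators are injective on the groups `CH^j(S_t, 1)_ℚ` for the hypersurfaces
`S_t : ∑ t_ijl w_i y_j z_l = 1` with smooth `V_t`. -/
def KOneInjective (T : Reg k) : Prop :=
  ∀ (a b c : ℕ) (t : Fin a → Option (Fin b) → Option (Fin c) → k), Smooth (zeroSum t).hom →
    Inj T 1 (sumS t)

/-- The same for the coefficients zero and one. -/
def ZeroOneKOneInjective (T : Reg k) : Prop :=
  ∀ (a b c : ℕ) (t : Fin a → Option (Fin b) → Option (Fin c) → k), Smooth (zeroSum t).hom →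
    (∀ i j l, t i j l = 0 ∨ t i j l = 1) → Inj T 1 (sumS t)

end Pool.Agent.Y107.KO
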